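import Pool.Agent.MP_698530_nt.Up

/-! Divisibility of products of central binomial coefficients: sharpness. -/

set_option autoImplicit false

namespace Pool.Agent.MP_698530_nt

open Finset

theorem pow_lcm {p : ℕ} (hp : p.Prime) {k : ℕ} (hk : 0 < k) (S : Finset (ℕ × ℕ)) (f : ℕ × ℕ → ℕ)
    (h : p ^ k ∣ S.lcm f) : ∃ x ∈ S, p ^ k ∣ f x := by
  induction S using Finset.induction_on with
  | empty =>
    have := Nat.one_lt_pow hk.ne' hp.one_lt
    rw [lcm_empty] at h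
    have := Nat.le_of_dvd one_pos h
    omega
  | insert a S ha ih =>
    rw [lcm_insert] at h
    have : p ^ k ∣ f a ∨ p ^ k ∣ S.lcm f := by
      by_cases h1 : f a = 0
      · exact Or.inl (h1 ▸ dvd_zero _)
      by_cases h2 : S.lcm f = 0
      · exact Or.inr (h2 ▸ dvd_zero _)
      rw [lcm_eq_nat_lcm, hp.pow_dvd_iff_le_factorization (Nat.lcm_ne_zero h1 h2),
        Nat.factorization_lcm h1 h2, Finsupp.sup_apply, le_sup_iff] at h
      rwa [hp.pow_dvd_iff_le_factorization h1, hp.pow_dvd_iff_le_factorization h2]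
    rcases this with h | h
    · exact ⟨a, mem_insert_self _ _, h⟩
    · obtain ⟨x, hx, h⟩ := ih h
      exact ⟨x, mem_insert_of_mem hx, h⟩

theorem lcm_ne (S : Finset (ℕ × ℕ)) (hS : ∀ x ∈ S, x.2 ≤ x.1 ∧ x.1.Coprime x.2) (a b : ℕ)
    (h : b < a) : (S.lcm fun x => x.1 * a - x.2 * b) ≠ 0 := by
  rw [Ne, Finset.lcm_eq_zero_iff]
  rintro ⟨x, hx, e⟩
  obtain ⟨h1, h2⟩ := hS x hx
  have h0 : 0 < x.1 := by
    by_contra hc
    rw [show x.1 = 0 by omega, show x.2 = 0 by omega] at h2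
    simp at h2
  have := Nat.mul_le_mul_right b h1
  have := Nat.mul_lt_mul_of_pos_left h h0
  omega

theorem nocarry {p : ℕ} (hp : p.Prime) (h2 : p ≠ 2) (e l b : ℕ) (hb : 2 * b + 1 = p ^ l) (i : ℕ) :
    (p ^ l * p ^ e + b * p ^ e) % p ^ i + (p ^ l * p ^ e + b * p ^ e) % p ^ i < p ^ i ∧
      b * p ^ e % p ^ i + p ^ l * p ^ e % p ^ i < p ^ i := by
  have od : ∀ j, Odd (p ^ j) := fun j => (hp.odd_of_ne_two h2).pow
  have m0 := (od i).pos
  have e0 := (od e).pos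
  have hK : 2 * (b * p ^ e) + p ^ e = p ^ (l + e) := by
    rw [pow_add, ← hb]
    ring
  rw [← pow_add]
  rcases Nat.lt_or_ge (l + e) i with h | h
  · have p3 : 3 ≤ p := by
      have := hp.two_le
      omega
    have a : p ^ (l + e) * 3 ≤ p ^ i :=
      (Nat.mul_le_mul_left _ p3).trans (pow_succ p _ ▸ Nat.pow_le_pow_right hp.pos h)
    have a1 := Nat.mod_le (p ^ (l + e) + b * p ^ e) (p ^ i)
    have a2 := Nat.mod_le (p ^ (l + e)) (p ^ i)
    have a3 := Nat.mod_le (b * p ^ e) (p ^ i)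
    omega
  · have d := pow_dvd_pow p h
    have hx := Nat.mod_lt (b * p ^ e) m0
    rw [Nat.add_mod, Nat.mod_eq_zero_of_dvd d, zero_add, Nat.mod_mod]
    refine ⟨?_, by omega⟩
    rcases Nat.lt_or_ge e i with g | g
    · have a : p ^ i ∣ 2 * (b * p ^ e % p ^ i) + p ^ e := by
        rw [← hK, ← Nat.div_add_mod (b * p ^ e) (p ^ i), mul_add, add_assoc] at d
        exact (Nat.dvd_add_right ((dvd_mul_right _ _).mul_left 2)).1 d
      have lt := Nat.pow_lt_pow_right hp.one_lt g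
      obtain ⟨c, hc⟩ := a
      have o1 := Nat.odd_iff.1 (od e)
      have c3 : c < 3 := Nat.lt_of_mul_lt_mul_left (a := p ^ i) (by omega)
      interval_cases c <;> omega
    · rw [Nat.mod_eq_zero_of_dvd ((pow_dvd_pow p g).mul_left b)]
      omega

theorem low1 {p : ℕ} (hp : p.Prime) (h2 : p ≠ 2) (e l b r c L : ℕ) (hb : 2 * b + 1 = p ^ l)
    (h1 : p ^ e < 2 * r) (h3 : 2 * r ≤ p ^ (e + 1)) (hc : c ≠ 0) (hL : L ≠ 0)
    (h : (∏ j ∈ range r, (2 * (b * p ^ e) + (2 * j + 1))) * (b * p ^ e).centralBinom ∣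
      c * L * ((p ^ l * p ^ e + b * p ^ e).centralBinom *
        (p ^ l * p ^ e + b * p ^ e).choose (b * p ^ e))) :
    (∏ j ∈ range r, (2 * j + 1)).factorization p + l ≤ c.factorization p + L.factorization p := by
  have c0 : ∀ x : ℕ, x.centralBinom ≠ 0 := Nat.centralBinom_ne_zero
  have c1 : ∀ x y : ℕ, (x + y).choose y ≠ 0 := fun x y => (Nat.choose_pos (by omega)).ne'
  have p1 : (∏ j ∈ range r, (2 * (b * p ^ e) + (2 * j + 1))) ≠ 0 := by positivity
  have h4 := (Nat.factorization_prime_le_iff_dvd (mul_ne_zero p1 (c0 _))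
    (mul_ne_zero (mul_ne_zero hc hL) (mul_ne_zero (c0 _) (c1 _ _)))).2 h p hp
  simp only [Nat.factorization_mul, ne_eq, mul_eq_zero, p1, hc, hL, c0, c1, or_self,
    not_false_eq_true, Finsupp.add_apply] at h4
  have z1 : (p ^ l * p ^ e + b * p ^ e).centralBinom.factorization p = 0 := by
    rw [Nat.centralBinom, two_mul, kum hp _ _ _ (Nat.lt_succ_self _)]
    exact sum_eq_zero fun i _ => if_neg (not_le.2 (nocarry hp h2 e l b hb i).1)
  have z2 : ((p ^ l * p ^ e + b * p ^ e).choose (b * p ^ e)).factorization p = 0 := by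
    rw [kum hp _ _ _ (Nat.lt_succ_self _)]
    exact sum_eq_zero fun i _ => if_neg (not_le.2 (nocarry hp h2 e l b hb i).2)
  obtain ⟨j₀, hj₀⟩ : Odd (p ^ e) := (hp.odd_of_ne_two h2).pow
  have key : ∑ j ∈ range r, ((2 * j + 1).factorization p + if j = j₀ then l else 0) ≤
      ∑ j ∈ range r, (2 * (b * p ^ e) + (2 * j + 1)).factorization p := by
    refine sum_le_sum fun j hj => ?_
    have hj := mem_range.1 hj
    split_ifs with g
    · rw [g, ← hj₀, show 2 * (b * p ^ e) + p ^ e = p ^ (e + l) by rw [pow_add, ← hb]; ring,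
        hp.factorization_pow, hp.factorization_pow]
      simp
    · have a := Nat.ordProj_dvd (2 * j + 1) p
      have a1 : (2 * j + 1).factorization p < e + 1 :=
        (Nat.pow_lt_pow_iff_right hp.one_lt).1 ((Nat.le_of_dvd (by omega) a).trans_lt (by omega))
      rw [add_zero, ← hp.pow_dvd_iff_le_factorization (by omega)]
      exact dvd_add (((pow_dvd_pow p (by omega)).mul_left b).mul_left 2) a
  rw [sum_add_distrib, sum_ite_eq', if_pos (mem_range.2 (by omega)),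
    ← Nat.factorization_prod_apply fun _ _ => by omega,
    ← Nat.factorization_prod_apply fun _ _ => by omega] at key
  omega

theorem form_eq {p l b : ℕ} (hb : 2 * b + 1 = p ^ l) {u v : ℕ} (h1 : v ≤ u) (h2 : u < p ^ l)
    (h3 : u.Coprime v) (h : p ^ l ∣ u * (p ^ l + b) - v * b) : u = 1 ∧ v = 1 := by
  have le : v * b ≤ u * (p ^ l + b) := Nat.mul_le_mul h1 (Nat.le_add_left _ _)
  have a : p ^ l ∣ u - v := by
    obtain ⟨c, hc⟩ := h
    rw [← Int.natCast_dvd_natCast]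
    refine ⟨3 * u - v - 2 * c, ?_⟩
    zify [le, h1] at hc hb ⊢
    linear_combination (u - v : ℤ) * hb - 2 * hc
  have e : u = v := by
    have := Nat.eq_zero_of_dvd_of_lt a (by omega)
    omega
  subst e
  simpa using h3

theorem form_eq2 {p a b u v u₀ v₀ : ℕ} (ha : 2 * a + v₀ = p) (hb : 2 * b + u₀ = p) (hab : b ≤ a)
    (h1 : v ≤ u) (h2 : u * v₀ < p) (h2' : v * u₀ < p) (h3 : u.Coprime v) (h4 : u₀.Coprime v₀)
    (h : p ∣ u * a - v * b) : u = u₀ ∧ v = v₀ := by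
  have le : v * b ≤ u * a := Nat.mul_le_mul h1 hab
  have a1 : (p : ℤ) ∣ (u * v₀ : ℕ) - (v * u₀ : ℕ) := by
    obtain ⟨c, hc⟩ := h
    refine ⟨u - v - 2 * c, ?_⟩
    zify [le] at hc ha hb ⊢
    linear_combination u * ha - v * hb - 2 * hc
  have e : u * v₀ = v * u₀ := by
    have := Int.eq_zero_of_abs_lt_dvd a1 (abs_lt.2 ⟨by omega, by omega⟩)
    omega
  refine ⟨Nat.dvd_antisymm (h3.dvd_of_dvd_mul_left (Dvd.intro _ e))
    (h4.dvd_of_dvd_mul_right (Dvd.intro_left _ e.symm)), Nat.dvd_antisymm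
    (h3.symm.dvd_of_dvd_mul_left (Dvd.intro _ e.symm))
    (h4.symm.dvd_of_dvd_mul_right (Dvd.intro_left _ e))⟩

/-- the divisibility with the multiplier attached to `c` and `S` -/
def Dv (r c : ℕ) (S : Finset (ℕ × ℕ)) : Prop := ∀ b d n : ℕ, 0 < b → 0 < d → 0 < n →
  (∏ j ∈ range r, (2 * (b * n) + (2 * j + 1))) * (b * n).centralBinom ∣
    c * (S.lcm fun x => x.1 * (d + b) - x.2 * b) *
      ((d * n + b * n).centralBinom * (d * n + b * n).choose (b * n))

theorem low2 {p : ℕ} (hp : p.Prime) (h2 : p ≠ 2) (r c : ℕ) (S : Finset (ℕ × ℕ)) (hc : c ≠ 0)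
    (hr : 0 < r) (hS : ∀ x ∈ S, x.2 ≤ x.1 ∧ x.1.Coprime x.2) (h : Dv r c S) :
    (∏ j ∈ range r, (2 * j + 1)).factorization p + (if (1, 1) ∈ S then 0 else 1) ≤
      c.factorization p := by
  obtain ⟨l, l0, hl⟩ : ∃ l, 0 < l ∧ ∀ x ∈ S, x.1 < p ^ l := ⟨S.sup Prod.fst + 1, by omega,
    fun x hx => ((le_sup hx).trans (Nat.le_succ _)).trans_lt (Nat.lt_pow_self hp.one_lt)⟩
  obtain ⟨b, hb⟩ : Odd (p ^ l) := (hp.odd_of_ne_two h2).pow
  have p1 := Nat.one_lt_pow l0.ne' hp.one_lt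
  have hL := lcm_ne S hS (p ^ l + b) b (by omega)
  have a := low1 hp h2 (Nat.log p (2 * r - 1)) l b r c _ hb.symm
    ((Nat.pow_log_le_self p (by omega)).trans_lt (by omega))
    (Nat.le_of_pred_lt (Nat.lt_pow_succ_log_self hp.one_lt (2 * r - 1))) hc hL
    (h b _ _ (by omega) (by omega) (pow_pos hp.pos _))
  have k : ∀ x ∈ S, p ^ l ∣ x.1 * (p ^ l + b) - x.2 * b → x = (1, 1) := fun x hx g =>
    Prod.ext_iff.2 (form_eq hb.symm (hS x hx).1 (hl x hx) (hS x hx).2 g)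
  have k1 : (S.lcm fun x => x.1 * (p ^ l + b) - x.2 * b).factorization p ≤ l := by
    by_contra g
    obtain ⟨x, hx, g⟩ := pow_lcm hp (Nat.succ_pos l) S _
      ((hp.pow_dvd_iff_le_factorization hL).2 (not_le.1 g))
    rw [k x hx ((pow_dvd_pow p (Nat.le_succ l)).trans g)] at g
    have := Nat.le_of_dvd (by omega) g
    have := Nat.pow_lt_pow_right hp.one_lt (Nat.lt_succ_self l)
    omega
  split_ifs with g
  · omega
  · by_contra g'
    obtain ⟨x, hx, g'⟩ := pow_lcm hp l0 S _ ((hp.pow_dvd_iff_le_factorization hL).2 (by omega))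
    exact g (k x hx g' ▸ hx)

theorem low3 (r c : ℕ) (S : Finset (ℕ × ℕ)) (hc : c ≠ 0)
    (hS : ∀ x ∈ S, x.2 ≤ x.1 ∧ x.1.Coprime x.2) (h : Dv r c S) (u v : ℕ) (hu : Odd u) (hv : Odd v)
    (h1 : v ≤ u) (h2 : u < 2 * r) (h3 : u.Coprime v) : (u, v) ∈ S := by
  obtain ⟨p, hp1, hp⟩ := Nat.exists_infinite_primes (c + (S.sup Prod.fst + 1) * u + 3)
  have cp : ¬p ∣ c := fun g => by
    have := Nat.le_of_dvd (Nat.pos_of_ne_zero hc) g
    omega
  by_contra hn
  rcases h1.eq_or_lt with e | lt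
  · subst e
    obtain rfl : v = 1 := by simpa using h3
    have := low2 hp (by omega) r c S hc (by omega) hS h
    rw [if_neg hn, Nat.factorization_eq_zero_of_not_dvd cp] at this
    omega
  obtain ⟨j, rfl⟩ := hu
  obtain ⟨i, rfl⟩ := hv
  obtain ⟨q, hq⟩ := hp.odd_of_ne_two (by omega)
  rw [add_mul] at hp1
  obtain ⟨b, rfl⟩ : ∃ b, q = b + j := ⟨q - j, by omega⟩
  obtain ⟨d, rfl⟩ : ∃ d, j = d + i := ⟨j - i, by omega⟩
  have a := h b d 1 (by omega) (by omega) one_pos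
  simp only [mul_one] at a
  have a1 : p ∣ ∏ j ∈ range r, (2 * b + (2 * j + 1)) :=
    (Dvd.intro 1 (by omega)).trans (dvd_prod_of_mem _ (mem_range.2 (show d + i < r by omega)))
  have nc : ∀ x y, x < p → y ≤ x → ¬p ∣ x.choose y := fun x y g1 g2 g => by
    have := (hp.dvd_iff_one_le_factorization (Nat.choose_pos g2).ne').1 g
    rw [Nat.factorization_choose_eq_zero_of_lt g1] at this
    omega
  have a2 := (a1.mul_right _).trans a
  rw [hp.dvd_mul, hp.dvd_mul, hp.dvd_mul] at a2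
  rcases a2 with (g | g) | g | g
  · exact cp g
  · obtain ⟨x, hx, g⟩ := pow_lcm hp one_pos S _ ((pow_one p).symm ▸ g)
    rw [pow_one] at g
    have s1 : x.1 ≤ S.sup Prod.fst := le_sup hx
    have s2 := Nat.mul_le_mul s1 lt.le
    have s3 := Nat.mul_le_mul_right (2 * (d + i) + 1) ((hS x hx).1.trans s1)
    have := form_eq2 (u₀ := 2 * (d + i) + 1) (v₀ := 2 * i + 1) (by omega) (by omega)
      (Nat.le_add_left _ _) (hS x hx).1 (by omega) (by omega) (hS x hx).2 h3 g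
    exact hn (this.1 ▸ this.2 ▸ hx)
  · exact nc _ _ (by omega) (by omega) g
  · exact nc _ _ (by omega) (by omega) g

theorem main (r c : ℕ) (S : Finset (ℕ × ℕ)) (hc : c ≠ 0)
    (hS : ∀ x ∈ S, x.2 ≤ x.1 ∧ x.1.Coprime x.2) : Dv r c S ↔ (∏ j ∈ range r, (2 * j + 1)) ∣ c ∧
      ∀ u v, Odd u → Odd v → v ≤ u → u < 2 * r → u.Coprime v → (u, v) ∈ S := by
  constructor
  · refine fun h => ⟨?_, low3 r c S hc hS h⟩
    rcases Nat.eq_zero_or_pos r with rfl | hr
    · simp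
    refine (Nat.factorization_prime_le_iff_dvd (by positivity) hc).1 fun p hp => ?_
    by_cases h2 : p = 2
    · rw [Nat.factorization_eq_zero_of_not_dvd]
      · exact Nat.zero_le _
      · intro g
        obtain ⟨j, -, hj⟩ := (hp.prime.dvd_finsetProd_iff _).1 g
        rw [h2] at hj
        omega
    · exact le_trans (Nat.le_add_right _ _) (low2 hp h2 r c S hc hr hS h)
  · rintro ⟨h1, h2⟩ b d n _ hd hn
    refine (upper r b d n _ hd hn (lcm_ne S hS (d + b) b (by omega))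
      fun u v a₁ a₂ a₃ a₄ a₅ => ?_).trans ?_
    · exact dvd_lcm (f := fun x : ℕ × ℕ => x.1 * (d + b) - x.2 * b) (h2 u v a₁ a₂ a₃ a₄ a₅)
    · gcongr

end Pool.Agent.MP_698530_nt
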