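import Pool.Agent.MP_698530_nt.QBin

/-! Positivity of the quotient by `1 - q ^ (2 K + 1)`. -/

namespace Pool.Agent.MP_698530_nt

open Finset Polynomial

theorem geom {a b : ℕ} (h : a ∣ b) : ∃ R : ℤ[X], Pos R ∧ R * (1 - X ^ a) = 1 - X ^ b := by
  obtain ⟨t, rfl⟩ := h
  refine ⟨∑ i ∈ range t, (X ^ a) ^ i, Pos.sum _ _ fun i _ => ?_, ?_⟩
  · rw [← pow_mul]; exact Pos.pow _
  · rw [geom_sum_mul_neg, pow_mul]

theorem dvd_gcd_mul {D P : ℤ[X]} (a b : ℕ) (ha : D ∣ (1 - X ^ a) * P) (hb : D ∣ (1 - X ^ b) * P) :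
    D ∣ (1 - X ^ Nat.gcd a b) * P := by
  induction a, b using Nat.gcd.induction with
  | H0 n => simpa using hb
  | H1 a b _ ih =>
    rw [Nat.gcd_rec]
    refine ih ?_ ha
    obtain ⟨R, -, hR⟩ := geom (a := a) (b := a * (b / a)) ⟨_, rfl⟩
    have h1 : (1 - X ^ (b % a) : ℤ[X]) * P =
        (1 - X ^ b) * P - X ^ (b % a) * R * ((1 - X ^ a) * P) := by
      have : (X : ℤ[X]) ^ b = X ^ (b % a) * X ^ (a * (b / a)) := by
        rw [← pow_add, Nat.mod_add_div]
      rw [this]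
      linear_combination (X ^ (b % a) * P) * hR
    rw [h1]
    exact dvd_sub hb (ha.mul_left _)

theorem binom_quot (c r h : ℕ) (hh : h ∣ r + 1) : ∃ R : ℤ[X], Pos R ∧
    R * (1 - X ^ h) = (1 - X ^ Nat.gcd h (c + r + 1)) * Bn (c + r) r := by
  have h0 : 0 < h := Nat.pos_of_dvd_of_pos hh r.succ_pos
  have h1 : (1 - X ^ (c + r + 1)) * Bn (c + r) r = (1 - X ^ (r + 1)) * Bn (c + (r + 1)) (r + 1) := by
    apply mul_right_cancel₀ (mul_ne_zero (qf_ne c) (qf_ne r))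
    have a1 := Bn_prod c r
    have a2 := Bn_prod c (r + 1)
    rw [← add_assoc, qf_succ, qf_succ] at a2
    rw [← add_assoc]
    linear_combination (1 - X ^ (c + r + 1)) * a1 - a2
  obtain ⟨S, -, hS⟩ := geom hh
  obtain ⟨R, hR⟩ := dvd_gcd_mul (D := 1 - X ^ h) (P := Bn (c + r) r) h (c + r + 1)
    (dvd_mul_right _ _) (by rw [h1, ← hS]; exact (dvd_mul_left _ _).mul_right _)
  have hR' : R * (1 - X ^ h) = (1 - X ^ Nat.gcd h (c + r + 1)) * Bn (c + r) r := by
    rw [hR, mul_comm]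
  exact ⟨R, rsw (Nat.gcd_pos_of_pos_left _ h0) (Nat.gcd_le_left _ h0) hR', hR'⟩

theorem sum_quot {ι : Type*} (s : Finset ι) (D : ℤ[X]) (E : ι → ℤ[X])
    (h : ∀ i ∈ s, ∃ R, Pos R ∧ R * D = E i) : ∃ R, Pos R ∧ R * D = ∑ i ∈ s, E i := by
  refine Finset.sum_induction E (fun e => ∃ R, Pos R ∧ R * D = e) ?_ ⟨0, Pos.zero, zero_mul _⟩ h
  rintro _ _ ⟨R, hR, rfl⟩ ⟨S, hS, rfl⟩
  exact ⟨R + S, hR.add hS, add_mul _ _ _⟩

theorem main_pos (K p : ℕ) : ∃ R : ℤ[X], Pos R ∧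
    R * ((1 - X ^ (2 * K + 1)) * (qf (K + p) * qf p * qf (2 * K))) =
      (1 - X ^ Nat.gcd p (2 * K + 1)) * (qf (2 * (K + p)) * qf K) := by
  induction p using Nat.strong_induction_on with
  | _ p ih =>
  rcases Nat.eq_zero_or_pos p with rfl | hp
  · exact ⟨1, Pos.one, by simp [qf_zero, mul_comm]⟩
  have term : ∀ t s : ℕ, ∃ R : ℤ[X], Pos R ∧
      R * ((1 - X ^ (2 * K + 1)) * (qf (K + p) * qf (2 * K))) =
        (1 - X ^ Nat.gcd p (2 * K + 1)) * (qf (2 * K + p) * qf K) *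
          (Bn (K + p) (t + K) * (Bn (t + K) (s + K) * Bn (p - t) s)) := by
    intro t s
    by_cases h1 : p < t
    · exact ⟨0, Pos.zero, by rw [Bn_lt (m := K + p) (by omega)]; simp⟩
    by_cases h2 : t < s
    · exact ⟨0, Pos.zero, by rw [Bn_lt (m := t + K) (by omega)]; simp⟩
    by_cases h3 : p - t < s
    · exact ⟨0, Pos.zero, by rw [Bn_lt h3]; simp⟩
    obtain ⟨i, rfl⟩ : ∃ i, t = s + i := ⟨t - s, by omega⟩
    obtain ⟨j, rfl⟩ : ∃ j, p = 2 * s + i + j := ⟨p - (2 * s + i), by omega⟩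
    obtain ⟨R1, p1, e1⟩ := ih s (by omega)
    obtain ⟨R2, p2, e2⟩ := binom_quot (i + j) (2 * (K + s)) (Nat.gcd s (2 * K + 1))
      (by rw [show 2 * (K + s) + 1 = 2 * s + (2 * K + 1) by ring]
          exact dvd_add ((Nat.gcd_dvd_left _ _).mul_left 2) (Nat.gcd_dvd_right _ _))
    obtain ⟨R3, p3, e3⟩ := geom (a := Nat.gcd (Nat.gcd s (2 * K + 1)) (i + j + 2 * (K + s) + 1))
      (b := Nat.gcd (2 * s + i + j) (2 * K + 1)) (by
        have d1 := (Nat.gcd_dvd_left (Nat.gcd s (2 * K + 1)) (i + j + 2 * (K + s) + 1)).trans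
          (Nat.gcd_dvd_right s (2 * K + 1))
        have d2 := Nat.gcd_dvd_right (Nat.gcd s (2 * K + 1)) (i + j + 2 * (K + s) + 1)
        refine Nat.dvd_gcd ?_ d1
        exact (Nat.dvd_add_right d1).1 (by
          rw [show 2 * K + 1 + (2 * s + i + j) = i + j + 2 * (K + s) + 1 by ring]; exact d2))
    refine ⟨R1 * R2 * R3 * Bn (i + j) i, ((p1.mul p2).mul p3).mul (Bn_pos _ _), ?_⟩
    rw [show 2 * s + i + j - (s + i) = j + s by omega]
    have b1 := Bn_prod' (m := i + j) (a := j) (b := i) (by ring)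
    have b2 := Bn_prod (i + j) (2 * (K + s))
    have b3 := Bn_prod' (m := K + (2 * s + i + j)) (a := j + s) (b := s + i + K) (by ring)
    have b4 := Bn_prod' (m := s + i + K) (a := i) (b := s + K) (by ring)
    have b5 := Bn_prod j s
    rw [show i + j + 2 * (K + s) = 2 * K + (2 * s + i + j) by ring] at b2 e2 e3
    rw [add_comm K s] at e1 e2 b2
    apply mul_right_cancel₀ (mul_ne_zero (mul_ne_zero (qf_ne (s + K)) (qf_ne s))
      (mul_ne_zero (qf_ne i) (qf_ne j)))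
    generalize (1 - X ^ Nat.gcd (2 * s + i + j) (2 * K + 1) : ℤ[X]) = g at *
    generalize (1 - X ^ Nat.gcd (Nat.gcd s (2 * K + 1)) (2 * K + (2 * s + i + j) + 1) : ℤ[X]) = g'
      at *
    generalize (1 - X ^ Nat.gcd s (2 * K + 1) : ℤ[X]) = h at *
    generalize (1 - X ^ (2 * K + 1) : ℤ[X]) = M at *
    generalize qf (K + (2 * s + i + j)) = fN at *
    generalize qf (2 * K + (2 * s + i + j)) = fA at *
    generalize Bn (K + (2 * s + i + j)) (s + i + K) = c1 at *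
    generalize Bn (s + i + K) (s + K) = c2 at *
    generalize Bn (j + s) s = c3 at *
    generalize Bn (2 * K + (2 * s + i + j)) (2 * (s + K)) = c4 at *
    generalize Bn (i + j) i = c5 at *
    linear_combination (R2 * R3 * c5 * fN * qf i * qf j) * e1 +
      (R3 * c5 * fN * qf i * qf j * qf (2 * (s + K)) * qf K) * e2 +
      (c4 * c5 * fN * qf i * qf j * qf (2 * (s + K)) * qf K) * e3 +
      (g * c4 * fN * qf (2 * (s + K)) * qf K) * b1 + (g * fN * qf K) * b2 -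
      (g * fA * qf K) * b3 - (g * fA * qf K * c1 * qf (j + s)) * b4 -
      (g * fA * qf K * c1 * c2 * qf i * qf (s + K)) * b5
  have outer : ∀ t : ℕ, ∃ R : ℤ[X], Pos R ∧
      R * ((1 - X ^ (2 * K + 1)) * (qf (K + p) * qf (2 * K))) =
        (1 - X ^ Nat.gcd p (2 * K + 1)) * (qf (2 * K + p) * qf K) *
          (X ^ (t * (t + K)) * Bn (K + p) (t + K) * Bn (K + p) t) := by
    intro t
    by_cases h1 : p < t
    · exact ⟨0, Pos.zero, by rw [Bn_lt (m := K + p) (r := t + K) (by omega)]; simp⟩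
    have v := vander (t + K) (p - t) K
    rw [show t + K + (p - t) = K + p by omega,
      Bn_symm (m := K + p) (a := p - t + K) (b := t) (by omega)] at v
    rw [← v, mul_sum, mul_sum]
    refine sum_quot _ _ _ fun s _ => ?_
    obtain ⟨R, hR, e⟩ := term t s
    refine ⟨X ^ (t * (t + K)) * X ^ (s * (s + K)) * R, ((Pos.pow _).mul (Pos.pow _)).mul hR, ?_⟩
    rw [mul_assoc, e]
    ring
  obtain ⟨R, hR, e⟩ := sum_quot (range (K + p + 1)) _ _ fun t _ => outer t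
  rw [← mul_sum, vander] at e
  refine ⟨R, hR, ?_⟩
  have b := Bn_prod' (m := K + p + (K + p)) (a := p) (b := K + p + K) (by ring)
  rw [show K + p + K = 2 * K + p by ring] at b e
  rw [two_mul (K + p), ← b]
  linear_combination (qf p) * e

end Pool.Agent.MP_698530_nt
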