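import Pool.Agent.MP_698530_nt.Uni

/-! Gaussian binomial coefficients: product formula, Vandermonde, unimodality. -/

namespace Pool.Agent.MP_698530_nt

open Finset Polynomial

/-- the polynomial `(1 - q) (1 - q ^ 2) ... (1 - q ^ m)` -/
noncomputable def qf (m : ℕ) : ℤ[X] := ∏ i ∈ range m, (1 - X ^ (i + 1))

/-- Gaussian binomial coefficient -/
noncomputable def Bn : ℕ → ℕ → ℤ[X]
  | _, 0 => 1
  | 0, _ + 1 => 0
  | m + 1, r + 1 => Bn m r + X ^ (r + 1) * Bn m (r + 1)

theorem qf_zero : qf 0 = 1 := by simp [qf]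

theorem qf_succ (m : ℕ) : qf (m + 1) = qf m * (1 - X ^ (m + 1)) := prod_range_succ _ _

theorem one_sub_ne {a : ℕ} (ha : 0 < a) : (1 - X ^ a : ℤ[X]) ≠ 0 := fun h => by
  have := congrArg (fun f : ℤ[X] => f.coeff 0) h
  simp [coeff_X_pow, ha.ne] at this

theorem qf_ne (m : ℕ) : qf m ≠ 0 := prod_ne_zero_iff.2 fun i _ => one_sub_ne i.succ_pos

theorem Bn_zero (m : ℕ) : Bn m 0 = 1 := by cases m <;> rfl

theorem Bn_succ (m r : ℕ) : Bn (m + 1) (r + 1) = Bn m r + X ^ (r + 1) * Bn m (r + 1) := rfl

theorem Bn_lt {m r : ℕ} (h : m < r) : Bn m r = 0 := by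
  induction m generalizing r with
  | zero => obtain ⟨r, rfl⟩ : ∃ r', r = r' + 1 := ⟨r - 1, by omega⟩; rfl
  | succ m ih =>
    obtain ⟨r, rfl⟩ : ∃ r', r = r' + 1 := ⟨r - 1, by omega⟩
    rw [Bn_succ, ih (by omega), ih (by omega)]; simp

theorem Bn_self (m : ℕ) : Bn m m = 1 := by
  induction m with
  | zero => rfl
  | succ m ih => rw [Bn_succ, ih, Bn_lt (by omega)]; simp

theorem Bn_prod (a b : ℕ) : Bn (a + b) b * (qf a * qf b) = qf (a + b) := by
  induction a generalizing b with
  | zero => simp [Bn_self, qf_zero]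
  | succ a iha =>
    induction b with
    | zero => simp [Bn_zero, qf_zero]
    | succ b ihb =>
      have h := iha (b + 1)
      rw [show a + (b + 1) = a + 1 + b by ring] at h
      rw [← add_assoc, Bn_succ, qf_succ (a + 1 + b)]
      rw [qf_succ a] at ihb ⊢
      rw [qf_succ b] at h ⊢
      linear_combination (1 - X ^ (b + 1)) * ihb + (X ^ (b + 1) * (1 - X ^ (a + 1))) * h

theorem Bn_prod' {m a b : ℕ} (h : m = a + b) : Bn m b * (qf a * qf b) = qf m := by
  subst h; exact Bn_prod a b

theorem Bn_symm {m a b : ℕ} (h : m = a + b) : Bn m a = Bn m b := by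
  apply mul_right_cancel₀ (mul_ne_zero (qf_ne a) (qf_ne b))
  rw [Bn_prod' h, mul_comm (qf a), Bn_prod' (h.trans (add_comm a b))]

theorem Bn_succ' (a b : ℕ) : Bn (a + b + 1) (b + 1) = Bn (a + b) (b + 1) + X ^ a * Bn (a + b) b := by
  cases a with
  | zero => simp [Bn_self, Bn_lt]
  | succ a =>
    rw [Bn_symm (a := b + 1) (b := a + 1) (by ring), Bn_succ,
      Bn_symm (m := a + 1 + b) (a := a) (b := b + 1) (by ring),
      Bn_symm (m := a + 1 + b) (a := a + 1) (b := b) rfl]

theorem vander (m n K : ℕ) :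
    ∑ i ∈ range (n + 1), X ^ (i * (i + K)) * Bn m (i + K) * Bn n i = Bn (m + n) (n + K) := by
  induction n generalizing K with
  | zero => simp [Bn_zero]
  | succ n ih =>
    have h1 := ih K
    have h2 := ih (K + 1)
    have h3 : ∑ i ∈ range (n + 1), X ^ (i * (i + K)) * Bn m (i + K) * Bn n i =
        ∑ i ∈ range (n + 1 + 1), X ^ (i * (i + K)) * Bn m (i + K) * Bn n i := by
      rw [sum_range_succ _ (n + 1), Bn_lt (Nat.lt_succ_self n)]; simp
    rw [← add_assoc, show n + 1 + K = n + K + 1 by ring, Bn_succ, ← h1, add_assoc n K 1, ← h2, h3,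
      sum_range_succ' _ (n + 1), sum_range_succ' _ (n + 1), Bn_zero, Bn_zero, mul_sum,
      add_right_comm, ← sum_add_distrib]
    congr 1
    refine sum_congr rfl fun i hi => ?_
    obtain ⟨a, rfl⟩ : ∃ a, n = a + i := ⟨n - i, by have := mem_range.1 hi; omega⟩
    rw [Bn_succ', show i + 1 + K = i + (K + 1) by ring]
    ring

/-- non-negative coefficients -/
def Pos (f : ℤ[X]) : Prop := ∀ i, 0 ≤ f.coeff i

theorem Pos.zero : Pos 0 := fun _ => by simp

theorem Pos.add {f g : ℤ[X]} (hf : Pos f) (hg : Pos g) : Pos (f + g) := fun i => by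
  rw [coeff_add]; exact add_nonneg (hf i) (hg i)

theorem Pos.mul {f g : ℤ[X]} (hf : Pos f) (hg : Pos g) : Pos (f * g) := fun i => by
  rw [coeff_mul]; exact sum_nonneg fun c _ => mul_nonneg (hf _) (hg _)

theorem Pos.pow (a : ℕ) : Pos (X ^ a) := fun i => by
  rw [coeff_X_pow]; split_ifs <;> norm_num

theorem Pos.one : Pos 1 := by simpa using Pos.pow 0

theorem Pos.sum {ι : Type*} (s : Finset ι) (f : ι → ℤ[X]) (h : ∀ i ∈ s, Pos (f i)) :
    Pos (∑ i ∈ s, f i) := Finset.sum_induction f Pos (fun _ _ => Pos.add) Pos.zero h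

theorem Bn_pos (m r : ℕ) : Pos (Bn m r) := by
  induction m generalizing r with
  | zero => cases r; exacts [Pos.one, Pos.zero]
  | succ m ih =>
    cases r with
    | zero => exact Pos.one
    | succ r => exact (ih r).add ((Pos.pow _).mul (ih _))

theorem Bn_deg (a b : ℕ) : (Bn (a + b) b).natDegree ≤ a * b := by
  induction a generalizing b with
  | zero => simp [Bn_self]
  | succ a iha =>
    induction b with
    | zero => simp [Bn_zero]
    | succ b ihb =>
      have h := iha (b + 1)
      rw [show a + (b + 1) = a + 1 + b by ring] at h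
      rw [← add_assoc, Bn_succ]
      refine natDegree_add_le_of_degree_le (ihb.trans (by nlinarith))
        (natDegree_mul_le.trans ?_)
      rw [natDegree_X_pow]
      nlinarith

/-- generating series -/
noncomputable def GF (n : ℕ) : PowerSeries ℤ[X] :=
  ∏ j ∈ range (n + 1), PowerSeries.mk fun a => (X ^ j : ℤ[X]) ^ a

theorem GF_coeff (n k : ℕ) : PowerSeries.coeff k (GF n) = Bn (k + n) n := by
  have key : ∀ x : ℤ[X], (PowerSeries.mk fun a => x ^ a) =
      1 + PowerSeries.C x * (PowerSeries.mk fun a => x ^ a) * PowerSeries.X := fun x => by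
    ext1 a
    cases a with
    | zero => simp
    | succ a => simp [PowerSeries.coeff_succ_mul_X, PowerSeries.coeff_one, pow_succ']
  induction n generalizing k with
  | zero => simp [GF, Bn_zero]
  | succ n ih =>
    have h : GF (n + 1) = GF n + PowerSeries.C (X ^ (n + 1)) * GF (n + 1) * PowerSeries.X := by
      have h1 : GF (n + 1) = GF n * PowerSeries.mk fun a => (X ^ (n + 1) : ℤ[X]) ^ a :=
        prod_range_succ _ _
      have h2 := key (X ^ (n + 1))
      rw [h1]
      linear_combination (GF n) * h2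
    induction k with
    | zero => rw [h, map_add, ih, PowerSeries.coeff_zero_mul_X]; simp [Bn_self]
    | succ k ihk =>
      rw [h, map_add, PowerSeries.coeff_succ_mul_X, PowerSeries.coeff_C_mul, ihk, ih,
        ← add_assoc (k + 1), Bn_succ, show k + (n + 1) = k + 1 + n by ring]

theorem Bn_coeff (n k m : ℕ) : (Bn (k + n) n).coeff m = (TT n k m).card := by
  rw [← GF_coeff, GF, PowerSeries.coeff_prod, finsetSum_coeff, TT, card_filter]
  push_cast
  refine sum_congr rfl fun d _ => ?_
  simp only [PowerSeries.coeff_mk, ← pow_mul, prod_pow_eq_pow_sum, coeff_X_pow, eq_comm]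

theorem Bn_uni (n k j m : ℕ) (hj : j ≤ m) (hm : 2 * m ≤ n * k) :
    (Bn (k + n) n).coeff j ≤ (Bn (k + n) n).coeff m := by
  induction m, hj using Nat.le_induction with
  | base => exact le_rfl
  | succ m _ ih =>
    refine (ih (by omega)).trans ?_
    rw [Bn_coeff, Bn_coeff]
    exact_mod_cast card_TT_le (by omega)

theorem rev_one_sub (a : ℕ) : (1 - X ^ a : ℤ[X]).reverse = -(1 - X ^ a) := by
  have h : (1 - X ^ a : ℤ[X]).natDegree = a := by
    rw [← natDegree_neg, neg_sub, ← C_1, natDegree_X_pow_sub_C]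
  rw [reverse, h, reflect_sub, ← pow_zero X, reflect_monomial, reflect_monomial, revAt_le le_rfl,
    revAt_zero]
  simp

theorem rev_qf (m : ℕ) : (qf m).reverse = (-1) ^ m * qf m := by
  induction m with
  | zero => rw [qf_zero, ← C_1, reverse_C]; simp
  | succ m ih => rw [qf_succ, reverse_mul_of_domain, ih, rev_one_sub]; ring

theorem rev_Bn (a b : ℕ) : (Bn (a + b) b).reverse = Bn (a + b) b := by
  have h := Bn_prod a b
  have h1 := congrArg reverse h
  rw [reverse_mul_of_domain, reverse_mul_of_domain, rev_qf, rev_qf, rev_qf, ← h] at h1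
  have h2 : ((-1 : ℤ[X]) ^ (a + b) * (qf a * qf b)) ≠ 0 :=
    mul_ne_zero (pow_ne_zero _ (by simp)) (mul_ne_zero (qf_ne a) (qf_ne b))
  apply mul_right_cancel₀ h2
  linear_combination h1

/-- the lemma of Reiner, Stanton and White for a Gaussian binomial coefficient -/
theorem rsw {n k a b : ℕ} (ha : 0 < a) (hab : a ≤ b) {R : ℤ[X]}
    (h : R * (1 - X ^ b) = (1 - X ^ a) * Bn (k + n) n) : Pos R := by
  have hb : 0 < b := by omega
  have hrev : R.reverse = R := by
    have h1 := congrArg reverse h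
    rw [reverse_mul_of_domain, reverse_mul_of_domain, rev_one_sub, rev_one_sub, rev_Bn] at h1
    apply mul_right_cancel₀ (one_sub_ne hb)
    linear_combination -h1 - h
  have hlow : ∀ m, 2 * m ≤ n * k → 0 ≤ R.coeff m := by
    intro m
    induction m using Nat.strong_induction_on with
    | _ m ih =>
      intro hm
      have h1 := congrArg (fun f : ℤ[X] => f.coeff m) h
      simp only [mul_sub, sub_mul, mul_one, one_mul, coeff_sub, coeff_mul_X_pow',
        coeff_X_pow_mul'] at h1
      have h2 : (if a ≤ m then (Bn (k + n) n).coeff (m - a) else 0) ≤ (Bn (k + n) n).coeff m := by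
        split_ifs
        · exact Bn_uni n k _ _ (by omega) hm
        · exact Bn_pos _ _ _
      have h3 : 0 ≤ (if b ≤ m then R.coeff (m - b) else 0) := by
        split_ifs
        · exact ih _ (by omega) (by omega)
        · exact le_rfl
      linarith
  by_cases hR : R = 0
  · rw [hR]; exact Pos.zero
  have hdeg : R.natDegree ≤ n * k := by
    have d : ∀ c : ℕ, (1 - X ^ c : ℤ[X]).natDegree = c := fun c => by
      rw [← natDegree_neg, neg_sub, ← C_1, natDegree_X_pow_sub_C]
    have h1 := natDegree_mul hR (one_sub_ne hb)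
    have h2 := natDegree_mul_le (p := (1 - X ^ a : ℤ[X])) (q := Bn (k + n) n)
    have h3 := Bn_deg k n
    rw [h, d] at h1
    rw [d] at h2
    rw [mul_comm] at h3
    omega
  intro i
  rcases le_or_gt i R.natDegree with hi | hi
  · rcases le_or_gt (2 * i) (n * k) with h1 | h1
    · exact hlow i h1
    · rw [← hrev, coeff_reverse, revAt_le hi]
      exact hlow _ (by omega)
  · rw [coeff_eq_zero_of_natDegree_lt hi]

end Pool.Agent.MP_698530_nt
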