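import Pool.Agent.MP_698530_nt.Main

/-! Divisibility by both factors. -/

namespace Pool.Agent.MP_698530_nt

open Finset Polynomial

theorem coprime_dvd {a b : ℕ} (h : Nat.gcd a b = 1) :
    ((1 - X ^ a) * (1 - X ^ b) : ℤ[X]) ∣ (1 - X ^ 1) * (1 - X ^ (a * b)) := by
  obtain ⟨S, -, hS⟩ := geom (a := a) (b := a * b) ⟨b, rfl⟩
  obtain ⟨T, -, hT⟩ := geom (a := b) (b := a * b) ⟨a, mul_comm _ _⟩
  rw [← h]
  exact dvd_gcd_mul a b ⟨T, by rw [← hT]; ring⟩ ⟨S, by rw [← hS]; ring⟩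

theorem two_factors (K p : ℕ) : ∃ R : ℤ[X],
    R * ((1 - X ^ (2 * K + 1)) * (1 - X ^ (2 * K + 3)) *
        (qf (K + (p + 1)) * qf (p + 1) * qf (2 * K))) =
      (1 - X ^ Nat.gcd (p + 1) ((2 * K + 1) * (2 * K + 3))) * (1 - X ^ Nat.gcd p (2 * K + 3)) *
        (qf (2 * (K + (p + 1))) * qf K) := by
  obtain ⟨R, -, e⟩ := main_pos K (p + 1)
  obtain ⟨R', -, e'⟩ := main_pos (K + 1) p
  obtain ⟨S, -, hS⟩ := geom (Nat.gcd_dvd_right (p + 1) (2 * K + 1))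
  have hB : R * S * (qf (K + (p + 1)) * qf (p + 1) * qf (2 * K)) =
      qf (2 * (K + (p + 1))) * qf K := by
    apply mul_left_cancel₀ (one_sub_ne (Nat.gcd_pos_of_pos_left (2 * K + 1) p.succ_pos))
    rw [← hS] at e
    linear_combination e
  rw [show K + 1 + p = K + (p + 1) by ring, show 2 * (K + 1) + 1 = 2 * K + 3 by ring,
    show 2 * (K + 1) = 2 * K + 1 + 1 by ring, qf_succ (2 * K + 1), qf_succ (2 * K), qf_succ K] at e'
  have h1 : (1 - X ^ (p + 1)) * ((1 - X ^ Nat.gcd p (2 * K + 3)) * (R * S)) =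
      (1 - X ^ (2 * K + 1)) * (1 - X ^ (2 * K + 3)) * ((1 + X ^ (K + 1)) * R') := by
    apply mul_left_cancel₀ (mul_ne_zero (one_sub_ne K.succ_pos) (mul_ne_zero
      (mul_ne_zero (qf_ne (K + (p + 1))) (qf_ne p)) (qf_ne (2 * K))))
    rw [qf_succ p] at hB
    simp only [Nat.succ_eq_add_one]
    linear_combination ((1 - X ^ (K + 1)) * (1 - X ^ Nat.gcd p (2 * K + 3))) * hB - e'
  have hc : Nat.gcd (2 * K + 1) (2 * K + 3) = 1 := by
    rw [show 2 * K + 3 = 2 + (2 * K + 1) by ring, Nat.gcd_add_self_right, Nat.gcd_comm]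
    exact (Nat.coprime_two_left.2 ⟨K, rfl⟩)
  obtain ⟨T, -, hT⟩ := geom (one_dvd (Nat.gcd p (2 * K + 3)))
  obtain ⟨U, hU⟩ := dvd_gcd_mul (D := (1 - X ^ (2 * K + 1)) * (1 - X ^ (2 * K + 3)))
    (P := (1 - X ^ Nat.gcd p (2 * K + 3)) * (R * S)) (p + 1) ((2 * K + 1) * (2 * K + 3))
    ⟨_, h1⟩ ((coprime_dvd hc).trans ⟨T * (R * S), by rw [← hT]; ring⟩)
  refine ⟨U, ?_⟩
  rw [← hB]
  linear_combination (-(qf (K + (p + 1)) * qf (p + 1) * qf (2 * K))) * hU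

/-- the exponents divide the factors of the conjecture of Amdeberhan -/
theorem gcd_dvd_yang (a b n : ℕ) (hab : b < a) (hn : 0 < n) :
    Nat.gcd (a * n - b * n) ((2 * (b * n) + 1) * (2 * (b * n) + 3)) ∣ 3 * (a - b) ∧
      Nat.gcd (a * n - b * n - 1) (2 * (b * n) + 3) ∣ 3 * a - b := by
  obtain ⟨c, rfl⟩ : ∃ c, a = b + c := ⟨a - b, by omega⟩
  have hc : 0 < c * n := Nat.mul_pos (by omega) hn
  rw [add_mul, Nat.add_sub_cancel_left, Nat.add_sub_cancel_left]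
  constructor
  · have d1 := Nat.gcd_dvd_left (c * n) ((2 * (b * n) + 1) * (2 * (b * n) + 3))
    have d2 := Nat.gcd_dvd_right (c * n) ((2 * (b * n) + 1) * (2 * (b * n) + 3))
    refine (Nat.dvd_add_right (d1.mul_left (4 * b * b * n + 8 * b))).1 ?_
    rw [show (4 * b * b * n + 8 * b) * (c * n) + 3 * c =
      c * ((2 * (b * n) + 1) * (2 * (b * n) + 3)) by ring]
    exact d2.mul_left c
  · obtain ⟨m, hm⟩ : ∃ m, c * n = m + 1 := ⟨c * n - 1, by omega⟩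
    rw [hm, Nat.add_sub_cancel, show 3 * (b + c) - b = 2 * b + 3 * c by omega]
    have d1 := Nat.gcd_dvd_left m (2 * (b * n) + 3)
    have d2 := Nat.gcd_dvd_right m (2 * (b * n) + 3)
    refine (Nat.dvd_add_right (d1.mul_left (2 * b))).1 ?_
    rw [show 2 * b * m + (2 * b + 3 * c) = c * (2 * (b * n) + 3) by nlinarith]
    exact d2.mul_left c

end Pool.Agent.MP_698530_nt
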