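import Mathlib

/-! Sylvester: the numbers of partitions in a box increase up to the middle. -/

namespace Pool.Agent.MP_698530_nt

open Finset MvPolynomial

/-- exponent vectors of degree `k` and weight `m` in the variables `0, ..., n` -/
noncomputable def TT (n k m : ℕ) : Finset (ℕ →₀ ℕ) :=
  (finsuppAntidiag (range (n + 1)) k).filter fun d => ∑ i ∈ range (n + 1), i * d i = m

theorem mem_TT {n k m : ℕ} {d : ℕ →₀ ℕ} : d ∈ TT n k m ↔ (∑ i ∈ range (n + 1), d i = k ∧
    d.support ⊆ range (n + 1)) ∧ ∑ i ∈ range (n + 1), i * d i = m := by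
  rw [TT, mem_filter, mem_finsuppAntidiag]

theorem sum_single_wt (n j : ℕ) (hj : j ≤ n) (c : ℕ → ℕ) (d : ℕ →₀ ℕ) :
    ∑ i ∈ range (n + 1), c i * (d + Finsupp.single j 1 : ℕ →₀ ℕ) i =
      ∑ i ∈ range (n + 1), c i * d i + c j := by
  simp only [Finsupp.add_apply, mul_add, sum_add_distrib, Finsupp.single_apply, mul_ite, mul_one,
    mul_zero]
  rw [sum_ite_eq, if_pos (mem_range.2 (by omega))]

theorem TT_move {n k m m' i j : ℕ} {d : ℕ →₀ ℕ} (hd : d ∈ TT n k m) (hi : i ∈ d.support)
    (hj : j ≤ n) (hm : m' + i = m + j) :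
    d - Finsupp.single i 1 + Finsupp.single j 1 ∈ TT n k m' := by
  rw [mem_TT] at hd ⊢
  obtain ⟨⟨h1, h2⟩, h3⟩ := hd
  have hin : i ≤ n := by have := mem_range.1 (h2 hi); omega
  have e : d - Finsupp.single i 1 + Finsupp.single i 1 = d :=
    Finsupp.sub_add_single_one_cancel (Finsupp.mem_support_iff.1 hi)
  have a1 := sum_single_wt n i hin (fun _ => 1) (d - Finsupp.single i 1)
  have a2 := sum_single_wt n j hj (fun _ => 1) (d - Finsupp.single i 1)
  have a3 := sum_single_wt n i hin (fun x => x) (d - Finsupp.single i 1)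
  have a4 := sum_single_wt n j hj (fun x => x) (d - Finsupp.single i 1)
  rw [e] at a1 a3
  simp only [one_mul] at a1 a2
  refine ⟨⟨by omega, ?_⟩, by omega⟩
  refine Finsupp.support_add.trans (union_subset ?_ ?_)
  · exact (Finsupp.support_mono tsub_le_self).trans h2
  · exact Finsupp.support_single_subset.trans (by simp; omega)

/-- the span of the monomials -/
noncomputable def WW (n k m : ℕ) : Submodule ℚ (MvPolynomial ℕ ℚ) :=
  Submodule.span ℚ (Set.range fun d : TT n k m => monomial d.1 (1 : ℚ))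

theorem mono_mem {n k m : ℕ} {d : ℕ →₀ ℕ} (hd : d ∈ TT n k m) : monomial d (1 : ℚ) ∈ WW n k m :=
  Submodule.subset_span ⟨⟨d, hd⟩, rfl⟩

theorem finrank_WW (n k m : ℕ) : Module.finrank ℚ (WW n k m) = (TT n k m).card := by
  rw [WW, finrank_span_eq_card, Fintype.card_coe]
  have := (basisMonomials ℕ ℚ).linearIndependent.comp (fun d : TT n k m => d.1)
    Subtype.val_injective
  simpa [Function.comp_def] using this

/-- a derivation that moves the variables -/
noncomputable def dv (c : ℕ → ℚ) (σ : ℕ → ℕ) :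
    Derivation ℚ (MvPolynomial ℕ ℚ) (MvPolynomial ℕ ℚ) :=
  mkDerivation ℚ fun i => c i • X (σ i)

theorem dv_X (c : ℕ → ℚ) (σ : ℕ → ℕ) (i : ℕ) : dv c σ (X i) = c i • X (σ i) :=
  mkDerivation_X _ _ _

theorem dv_mono (c : ℕ → ℚ) (σ : ℕ → ℕ) (d : ℕ →₀ ℕ) : dv c σ (monomial d 1) =
    ∑ i ∈ d.support, ((d i : ℚ) * c i) •
      monomial (d - Finsupp.single i 1 + Finsupp.single (σ i) 1) (1 : ℚ) := by
  rw [dv, mkDerivation_monomial, one_smul, Finsupp.sum]
  refine sum_congr rfl fun i _ => ?_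
  rw [smul_eq_mul, mul_smul_comm, X, monomial_mul, smul_monomial, smul_monomial]
  simp [mul_comm]

theorem WW_map {n k m : ℕ} (D : MvPolynomial ℕ ℚ →ₗ[ℚ] MvPolynomial ℕ ℚ)
    (U : Submodule ℚ (MvPolynomial ℕ ℚ)) (h : ∀ d ∈ TT n k m, D (monomial d 1) ∈ U) :
    ∀ v ∈ WW n k m, D v ∈ U := by
  intro v hv
  have : WW n k m ≤ U.comap D := Submodule.span_le.2 (by rintro _ ⟨d, rfl⟩; exact h d.1 d.2)
  exact this hv

/-- raising operator -/
noncomputable def up (n : ℕ) := dv (fun i => (n : ℚ) - i) (fun i => i + 1)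

/-- lowering operator -/
noncomputable def dn := dv (fun i => (i : ℚ)) (fun i => i - 1)

theorem up_mem {n k m : ℕ} : ∀ v ∈ WW n k m, up n v ∈ WW n k (m + 1) := by
  refine WW_map (up n).toLinearMap _ fun d hd => ?_
  change up n _ ∈ _
  rw [up, dv_mono]
  refine Submodule.sum_mem _ fun i hi => ?_
  have hin : i ≤ n := by have := mem_range.1 ((mem_TT.1 hd).1.2 hi); omega
  rcases hin.eq_or_lt with rfl | h
  · simp
  · exact Submodule.smul_mem _ _ (mono_mem (TT_move hd hi h (by omega)))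

theorem dn_mem {n k m : ℕ} : ∀ v ∈ WW n k (m + 1), dn v ∈ WW n k m := by
  refine WW_map dn.toLinearMap _ fun d hd => ?_
  change dn _ ∈ _
  rw [dn, dv_mono]
  refine Submodule.sum_mem _ fun i hi => ?_
  have hin : i ≤ n := by have := mem_range.1 ((mem_TT.1 hd).1.2 hi); omega
  rcases Nat.eq_zero_or_pos i with rfl | h
  · simp
  · exact Submodule.smul_mem _ _ (mono_mem (TT_move hd hi (by omega) (by omega)))

theorem dn_zero {n k : ℕ} : ∀ v ∈ WW n k 0, dn v = 0 := by
  intro v hv
  refine (Submodule.mem_bot ℚ).1 (WW_map dn.toLinearMap ⊥ (fun d hd => ?_) v hv)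
  change dn _ ∈ _
  rw [dn, dv_mono]
  refine Submodule.sum_mem _ fun i hi => ?_
  have h := (sum_eq_zero_iff.1 (mem_TT.1 hd).2) i ((mem_TT.1 hd).1.2 hi)
  have h' : (d i : ℚ) * i = 0 := by rw [mul_comm]; exact_mod_cast h
  rw [h']; simp

theorem comm_eq (n : ℕ) : ⁅up n, dn⁆ = dv (fun i => 2 * (i : ℚ) - n) fun i => i := by
  refine derivation_ext fun i => ?_
  rw [Derivation.commutator_apply, up, dn, dv_X, dv_X, dv_X, Derivation.map_smul,
    Derivation.map_smul, dv_X, dv_X, smul_smul, smul_smul, Nat.add_sub_cancel]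
  cases i with
  | zero => simp
  | succ i =>
    rw [Nat.add_sub_cancel, ← sub_smul]
    congr 1
    push_cast
    ring

theorem wt_mono {n k m : ℕ} {d : ℕ →₀ ℕ} (hd : d ∈ TT n k m) :
    dv (fun i => 2 * (i : ℚ) - n) (fun i => i) (monomial d 1) =
      (2 * (m : ℚ) - n * k) • monomial d (1 : ℚ) := by
  have h0 : ∀ i ∈ d.support, ((d i : ℚ) * (2 * (i : ℚ) - n)) •
      monomial (d - Finsupp.single i 1 + Finsupp.single i 1) (1 : ℚ) =
      ((d i : ℚ) * (2 * (i : ℚ) - n)) • monomial d (1 : ℚ) := fun i hi => by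
    rw [Finsupp.sub_add_single_one_cancel (Finsupp.mem_support_iff.1 hi)]
  have h4 : ∑ i ∈ d.support, ((d i : ℚ) * (2 * (i : ℚ) - n)) = 2 * (m : ℚ) - n * k := by
    obtain ⟨⟨h1, h2⟩, h3⟩ := mem_TT.1 hd
    rw [sum_subset h2 fun i _ hi => by rw [Finsupp.notMem_support_iff.1 hi]; simp, ← h1, ← h3]
    push_cast
    rw [mul_sum, mul_sum, ← sum_sub_distrib]
    exact sum_congr rfl fun i _ => by ring
  rw [dv_mono, sum_congr rfl h0, ← sum_smul, h4]

theorem comm_WW {n k m : ℕ} : ∀ v ∈ WW n k m,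
    up n (dn v) - dn (up n v) = (2 * (m : ℚ) - n * k) • v := by
  intro v hv
  rw [← Derivation.commutator_apply, comm_eq]
  induction hv using Submodule.span_induction with
  | mem x hx => obtain ⟨d, rfl⟩ := hx; exact wt_mono d.2
  | zero => simp
  | add x y _ _ hx hy => rw [map_add, hx, hy, smul_add]
  | smul a x _ hx => rw [Derivation.map_smul, hx, smul_comm]

theorem updn_inj {n k : ℕ} (m : ℕ) (hm : 2 * m < n * k) : ∀ c : ℚ, 0 < c → ∀ v ∈ WW n k m,
    up n (dn v) + c • v = 0 → v = 0 := by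
  induction m with
  | zero =>
    intro c hc v hv h
    rw [dn_zero v hv, map_zero, zero_add] at h
    exact (smul_eq_zero.1 h).resolve_left hc.ne'
  | succ m ih =>
    intro c hc v hv h
    have h1 := congrArg dn h
    rw [map_add, Derivation.map_smul, map_zero] at h1
    have h2 := comm_WW _ (dn_mem v hv)
    have h3 : (0 : ℚ) < n * k - 2 * m := by
      have : ((2 * m : ℕ) : ℚ) < (n * k : ℕ) := by exact_mod_cast (by omega : 2 * m < n * k)
      push_cast at this
      linarith
    have h4 := ih (by omega) (c + (n * k - 2 * m)) (by linarith) _ (dn_mem v hv)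
      (by linear_combination (norm := module) h1 + h2)
    rw [h4, map_zero, zero_add] at h
    exact (smul_eq_zero.1 h).resolve_left hc.ne'

theorem card_TT_le {n k m : ℕ} (hm : 2 * m < n * k) : (TT n k m).card ≤ (TT n k (m + 1)).card := by
  rw [← finrank_WW, ← finrank_WW]
  have : FiniteDimensional ℚ (WW n k (m + 1)) :=
    FiniteDimensional.span_of_finite ℚ (Set.finite_range _)
  refine LinearMap.finrank_le_finrank_of_injective
    (f := (up n).toLinearMap.restrict (p := WW n k m) (q := WW n k (m + 1)) up_mem) ?_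
  rw [injective_iff_map_eq_zero]
  rintro ⟨v, hv⟩ h
  have h1 : up n v = 0 := congrArg Subtype.val h
  have h2 := comm_WW v hv
  have h3 : (0 : ℚ) < n * k - 2 * m := by
    have : ((2 * m : ℕ) : ℚ) < (n * k : ℕ) := by exact_mod_cast hm
    push_cast at this
    linarith
  rw [h1, map_zero, sub_zero] at h2
  exact Subtype.ext (updn_inj m hm _ h3 v hv (by rw [h2, ← add_smul]; simp))

end Pool.Agent.MP_698530_nt
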