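import Mathlib

/-! Divisibility of products of central binomial coefficients: the upper bound. -/

set_option autoImplicit false

namespace Pool.Agent.MP_698530_nt

open Finset

theorem kum {p : ℕ} (hp : p.Prime) (a b B : ℕ) (h : a + b < B) :
    ((a + b).choose b).factorization p =
      ∑ i ∈ Ico 1 B, if p ^ i ≤ b % p ^ i + a % p ^ i then 1 else 0 := by
  rw [Nat.factorization_choose' hp ((Nat.log_le_self p _).trans_lt h), card_filter]

theorem ident (K r : ℕ) : (∏ j ∈ range r, (2 * K + (2 * j + 1))) * K.centralBinom * r.centralBinom =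
    (∏ j ∈ range r, (2 * j + 1)) * ((K + r).centralBinom * (K + r).choose r) := by
  induction r with
  | zero => simp
  | succ r ih =>
    have h1 := Nat.succ_mul_centralBinom_succ r
    have h2 := Nat.succ_mul_centralBinom_succ (K + r)
    have h3 := Nat.add_one_mul_choose_eq (K + r) r
    rw [prod_range_succ, prod_range_succ, ← add_assoc K r 1]
    refine Nat.eq_of_mul_eq_mul_left (Nat.succ_pos r) ?_
    zify at *
    linear_combination (∏ j ∈ range r, (2 * K + (2 * j + 1) : ℤ)) * (2 * K + (2 * r + 1)) *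
      K.centralBinom * h1 + 2 * (2 * r + 1) * (2 * K + (2 * r + 1)) * ih -
      (∏ j ∈ range r, (2 * j + 1 : ℤ)) * (2 * r + 1) * ((K + r).choose r * h2 -
        (K + r + 1).centralBinom * h3)

theorem mod_cases (m x y : ℕ) (hm : 0 < m) : (x + y) % m = x % m + y % m ∧ x % m + y % m < m ∨
    (x + y) % m + m = x % m + y % m := by
  have a := Nat.mod_lt x hm
  have b := Nat.mod_lt y hm
  rw [Nat.add_mod]
  rcases Nat.lt_or_ge (x % m + y % m) m with h | h
  · exact Or.inl ⟨Nat.mod_eq_of_lt h, h⟩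
  · right
    rw [Nat.mod_eq_sub_mod h, Nat.mod_eq_of_lt (by omega)]
    omega

theorem lev (m K P r : ℕ) (hm : 0 < m) :
    ((if m ≤ (K + r) % m + (K + r) % m then 1 else 0) + if m ≤ r % m + K % m then 1 else 0) ≤
    (if m ≤ r % m + r % m then 1 else 0) + ((if m ≤ (P + K) % m + (P + K) % m then 1 else 0) +
      if m ≤ K % m + P % m then 1 else 0) +
      if 2 * (r % m) < m ∧ 2 * (K % m) + 2 * (P % m) < m ∧ m ≤ 2 * (K % m) + 2 * (r % m)
        then 1 else 0 := by
  have a := Nat.mod_lt K hm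
  have b := Nat.mod_lt P hm
  have c := Nat.mod_lt r hm
  have d := mod_cases m K r hm
  have e := mod_cases m P K hm
  split_ifs <;> omega

theorem lev0 (m K P : ℕ) (hm : 0 < m) : (if m ≤ K % m + K % m then 1 else 0) ≤
    (if m ≤ (P + K) % m + (P + K) % m then 1 else 0) + if m ≤ K % m + P % m then 1 else 0 := by
  have a := Nat.mod_lt K hm
  have b := Nat.mod_lt P hm
  have e := mod_cases m P K hm
  split_ifs <;> omega

theorem exc {p : ℕ} (hp : p.Prime) (h2 : p ≠ 2) (k r b d n L : ℕ) (hd : 0 < d) (hn : 0 < n)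
    (hL : L ≠ 0)
    (hS : ∀ u v, Odd u → Odd v → v ≤ u → u < 2 * r → u.Coprime v → u * (d + b) - v * b ∣ L)
    (h : 2 * (r % p ^ k) < p ^ k ∧ 2 * (b * n % p ^ k) + 2 * (d * n % p ^ k) < p ^ k ∧
      p ^ k ≤ 2 * (b * n % p ^ k) + 2 * (r % p ^ k)) :
    k ∈ Ioc ((Nat.gcd (b * n) (d * n)).factorization p)
      ((Nat.gcd (b * n) (d * n)).factorization p + L.factorization p) := by
  obtain ⟨h1, h3, h4⟩ := h
  have g0 : Nat.gcd (b * n) (d * n) ≠ 0 := Nat.gcd_ne_zero_right (Nat.mul_pos hd hn).ne'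
  have hodd : Odd (p ^ k) := (hp.odd_of_ne_two h2).pow
  have key : ∀ j, j ≤ (Nat.gcd (b * n) (d * n)).factorization p ↔ p ^ j ∣ b * n ∧ p ^ j ∣ d * n :=
    fun j => by rw [← hp.pow_dvd_iff_le_factorization g0, Nat.dvd_gcd_iff]
  generalize (Nat.gcd (b * n) (d * n)).factorization p = e at key
  have k1 : e < k := by
    by_contra hc
    obtain ⟨a1, a2⟩ := (key k).1 (not_lt.1 hc)
    rw [Nat.mod_eq_zero_of_dvd a1] at h4
    omega
  refine mem_Ioc.2 ⟨k1, ?_⟩
  have e1 := Nat.div_add_mod (b * n) (p ^ k)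
  have e2 := Nat.div_add_mod (d * n) (p ^ k)
  have hr := Nat.mod_le r (p ^ k)
  have m1 : ∀ j, j ≤ k → p ^ j ∣ b * n % p ^ k → p ^ j ∣ b * n := fun j hj =>
    (Nat.dvd_mod_iff (pow_dvd_pow p hj)).1
  have m2 : ∀ j, j ≤ k → p ^ j ∣ d * n % p ^ k → p ^ j ∣ d * n := fun j hj =>
    (Nat.dvd_mod_iff (pow_dvd_pow p hj)).1
  generalize b * n % p ^ k = x at *
  generalize d * n % p ^ k = y at *
  obtain ⟨v, hv⟩ : ∃ v, p ^ k = 2 * x + 2 * y + v := ⟨p ^ k - (2 * x + 2 * y), by omega⟩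
  have ov : Odd v := by
    rw [Nat.odd_iff] at hodd ⊢
    omega
  have ou : Odd (2 * y + v) := by
    rw [Nat.odd_iff] at ov ⊢
    omega
  have ur : 2 * y + v < 2 * r := by
    rw [Nat.odd_iff] at ov
    omega
  obtain ⟨g, u', v', g0, hc, hu', hv'⟩ := Nat.exists_coprime' (m := 2 * y + v) (n := v)
    (Nat.gcd_pos_of_pos_right _ ov.pos)
  have le' : v' ≤ u' := Nat.le_of_mul_le_mul_right (by omega) g0
  have le2 : u' ≤ u' * g := Nat.le_mul_of_pos_right _ g0
  have hdv := hS u' v' (Nat.Odd.of_mul_left (hu' ▸ ou)) (Nat.Odd.of_mul_left (hv' ▸ ov)) le'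
    (by omega) hc
  have le3 : v' * b ≤ u' * (d + b) := Nat.mul_le_mul le' (Nat.le_add_left _ _)
  have hm : p ^ k ∣ g * (u' * (d + b) - v' * b) := by
    rw [← Int.natCast_dvd_natCast]
    refine ⟨(2 * (b * n / p ^ k : ℕ) + 1) * d - 2 * b * (d * n / p ^ k : ℕ), ?_⟩
    rw [Nat.cast_mul, Nat.cast_sub le3]
    generalize b * n / p ^ k = q at *
    generalize d * n / p ^ k = q' at *
    zify at e1 e2 hv hu' hv' ⊢
    linear_combination (-(d + b) : ℤ) * hu' + b * hv' - d * hv - 2 * d * e1 + 2 * b * e2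
  have h5 := (hp.pow_dvd_iff_le_factorization (mul_ne_zero g0.ne' hL)).1
    (hm.trans (Nat.mul_dvd_mul_left g hdv))
  rw [Nat.factorization_mul g0.ne' hL, Finsupp.add_apply] at h5
  have h6 : g.factorization p ≤ e := by
    by_contra hc
    have a : p ^ (e + 1) ∣ g := (hp.pow_dvd_iff_le_factorization g0.ne').2 (by omega)
    have au : p ^ (e + 1) ∣ 2 * y + v := hu' ▸ a.mul_left _
    have av : p ^ (e + 1) ∣ v := hv' ▸ a.mul_left _
    have co : (p ^ (e + 1)).Coprime 2 := (hp.odd_of_ne_two h2).pow.coprime_two_right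
    have ay : p ^ (e + 1) ∣ y := co.dvd_of_dvd_mul_left ((Nat.dvd_add_left av).1 au)
    have ax : p ^ (e + 1) ∣ x := by
      refine co.dvd_of_dvd_mul_left ((Nat.dvd_add_left au).1 ?_)
      rw [← add_assoc, ← hv]
      exact pow_dvd_pow p k1
    have := (key (e + 1)).2 ⟨m1 _ k1 ax, m2 _ k1 ay⟩
    omega
  omega

theorem upper (r b d n L : ℕ) (hd : 0 < d) (hn : 0 < n) (hL : L ≠ 0)
    (hS : ∀ u v, Odd u → Odd v → v ≤ u → u < 2 * r → u.Coprime v → u * (d + b) - v * b ∣ L) :
    (∏ j ∈ range r, (2 * (b * n) + (2 * j + 1))) * (b * n).centralBinom ∣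
      (∏ j ∈ range r, (2 * j + 1)) * L *
        ((d * n + b * n).centralBinom * (d * n + b * n).choose (b * n)) := by
  have c0 : ∀ x : ℕ, x.centralBinom ≠ 0 := Nat.centralBinom_ne_zero
  have c1 : ∀ x y : ℕ, (x + y).choose y ≠ 0 := fun x y => (Nat.choose_pos (by omega)).ne'
  have p1 : (∏ j ∈ range r, (2 * (b * n) + (2 * j + 1))) ≠ 0 := by positivity
  have p2 : (∏ j ∈ range r, (2 * j + 1)) ≠ 0 := by positivity
  have cb : ∀ x : ℕ, x.centralBinom = (x + x).choose x := fun x => by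
    rw [Nat.centralBinom, two_mul]
  refine (Nat.factorization_prime_le_iff_dvd (mul_ne_zero p1 (c0 _))
    (mul_ne_zero (mul_ne_zero p2 hL) (mul_ne_zero (c0 _) (c1 _ _)))).1 fun p hp => ?_
  have id := congrArg (fun x : ℕ => x.factorization p) (ident (b * n) r)
  simp only [Nat.factorization_mul, ne_eq, mul_eq_zero, p1, p2, hL, c0, c1, or_self,
    not_false_eq_true, Finsupp.add_apply] at id ⊢
  obtain ⟨B, hB⟩ : ∃ B, 2 * (d * n) + 2 * (b * n) + 2 * r < B := ⟨_, Nat.lt_succ_self _⟩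
  by_cases h2 : p = 2
  · have a : (∏ j ∈ range r, (2 * (b * n) + (2 * j + 1))).factorization p = 0 := by
      refine Nat.factorization_eq_zero_of_not_dvd fun h => ?_
      obtain ⟨j, -, hj⟩ := (hp.prime.dvd_finsetProd_iff _).1 h
      rw [h2] at hj
      omega
    have := sum_le_sum (s := Ico 1 B) fun i _ => lev0 (p ^ i) (b * n) (d * n) (pow_pos hp.pos i)
    rw [sum_add_distrib, ← kum hp _ _ B (by omega), ← kum hp _ _ B (by omega),
      ← kum hp _ _ B (by omega), ← cb, ← cb] at this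
    omega
  · have := sum_le_sum (s := Ico 1 B) fun i _ => lev (p ^ i) (b * n) (d * n) r (pow_pos hp.pos i)
    rw [sum_add_distrib, sum_add_distrib, sum_add_distrib, sum_add_distrib,
      ← kum hp _ _ B (by omega), ← kum hp _ _ B (by omega), ← kum hp _ _ B (by omega),
      ← kum hp _ _ B (by omega), ← kum hp _ _ B (by omega), ← cb, ← cb, ← cb, ← card_filter] at this
    have a := card_le_card (t := Ioc _ _) fun k hk =>
      exc hp h2 k r b d n L hd hn hL hS ((mem_filter (s := Ico 1 B)).1 hk).2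
    rw [Nat.card_Ioc, Nat.add_sub_cancel_left] at a
    omega

end Pool.Agent.MP_698530_nt
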